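import Pool.Agent.H.MP_5011cf_an.B

set_option autoImplicit false
open Filter Topology Metric Set MeasureTheory Complex ComplexConjugate
open Pool.Agent.H.MP_5011cf_an

namespace Pool.Agent.H.MP_32de40_an

theorem glue {f : ℂ → ℂ} {U : Set ℂ} (hU : IsOpen U) (hc : ContinuousOn f U)
    (hd : ∀ z ∈ U, z.im ≠ 0 → DifferentiableAt ℂ f z) : DifferentiableOn ℂ f U := by
  refine (isConservativeOn_and_continuousOn_iff_isDifferentiableOn hU).mp ⟨fun z w h => ?_, hc⟩
  have key := fun (z w : ℂ) (h : Rectangle z w ⊆ U) (h0 : 0 ≤ z.im * w.im) =>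
    integral_boundary_rect_eq_zero_of_continuousOn_of_differentiableOn f z w (hc.mono h)
      fun x hx => (hd x (h ⟨Ioo_subset_Icc_self hx.1, Ioo_subset_Icc_self hx.2⟩) fun e => by
        have h1 := hx.2.1
        have h2 := hx.2.2
        rw [e] at h1 h2
        rcases le_total z.im w.im with l | l
        · rw [min_eq_left l] at h1
          rw [max_eq_right l] at h2
          nlinarith
        · rw [min_eq_right l] at h1
          rw [max_eq_left l] at h2
          nlinarith).differentiableWithinAt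
  rw [eq_neg_iff_add_eq_zero, wedgeIntegral_add_wedgeIntegral_eq]
  rcases le_or_gt 0 (z.im * w.im) with h0 | h0
  · exact key z w h h0
  have m0 : (0 : ℝ) ∈ uIcc z.im w.im := by
    rcases mul_neg_iff.mp h0 with ⟨a, b⟩ | ⟨a, b⟩
    · exact mem_uIcc_of_ge b.le a.le
    · exact mem_uIcc_of_le a.le b.le
  have s1 := uIcc_subset_uIcc_left m0
  have s2 := uIcc_subset_uIcc_right m0
  have k1 := key z ⟨w.re, 0⟩ (fun x hx => h ⟨hx.1, s1 hx.2⟩) (by simp)
  have k2 := key ⟨z.re, 0⟩ w (fun x hx => h ⟨hx.1, s2 hx.2⟩) (by simp)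
  have ii : ∀ x ∈ uIcc z.re w.re, ContinuousOn (fun y : ℝ => f (x + y * I)) (uIcc z.im w.im) :=
    fun x hx => hc.comp (by fun_prop) fun y hy => h ⟨by simpa using hx, by simpa using hy⟩
  have a1 := fun x hx => intervalIntegral.integral_add_adjacent_intervals
    ((ii x hx).mono s1).intervalIntegrable (μ := volume) ((ii x hx).mono s2).intervalIntegrable
  rw [← a1 _ left_mem_uIcc, ← a1 _ right_mem_uIcc]
  simp only [smul_eq_mul] at k1 k2 ⊢
  linear_combination k1 + k2

theorem prim {G : ℂ → ℂ} {U : Set ℂ} (hU : IsOpen U) (cU : Convex ℝ U)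
    (hG : DifferentiableOn ℂ G U) {M : ℝ} (hM : ∀ w ∈ U, ‖G w‖ ≤ M) :
    ∃ E : ℂ → ℂ, Continuous E ∧ ∀ w ∈ U, HasDerivAt E (G w) w := by
  obtain ⟨g, hg⟩ := cU.exists_forall_hasDerivWithinAt hG
  obtain ⟨E, h1, h2⟩ := (cU.lipschitzOnWith_of_nnnorm_hasDerivWithin_le (C := M.toNNReal) hg
    fun x hx => (Real.le_toNNReal_iff_coe_le ((norm_nonneg _).trans (hM x hx))).mpr
      (hM x hx)).extend_finite_dimension
  exact ⟨E, h1.continuous, fun w hw => ((hg w hw).hasDerivAt (hU.mem_nhds hw)).congr_of_eventuallyEq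
    ((hU.eventually_mem hw).mono fun x hx => (h2 hx).symm)⟩

theorem refl {G : ℂ → ℂ} {p q a ε : ℝ} (a0 : 0 < a) (e0 : 0 < ε)
    (hG : DifferentiableOn ℂ G (Ioo p q ×ℂ Ioo 0 a))
    (hb : ∀ w ∈ Ioo p q ×ℂ Ioo 0 a, ε ≤ ‖G w‖ ∧ ‖G w‖ ≤ 1)
    (hl : ∀ᵐ x : ℝ, Tendsto (fun y : ℝ => ‖G (x + y * I)‖) (𝓝[>] 0) (𝓝 1)) :
    ∃ K : ℂ → ℂ, DifferentiableOn ℂ K (Ioo p q ×ℂ Ioo (-a) a) ∧ EqOn K G (Ioo p q ×ℂ Ioo 0 a) ∧
      ∀ w ∈ Ioo p q ×ℂ Ioo (-a) a, ‖K w‖ ≤ 1 + ε⁻¹ := by
  set U := Ioo p q ×ℂ Ioo 0 a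
  have hU : IsOpen U := isOpen_Ioo.reProdIm isOpen_Ioo
  have hV : IsOpen (Ioo p q ×ℂ Ioo (-a) a) := isOpen_Ioo.reProdIm isOpen_Ioo
  have cU : Convex ℝ U := ((convex_Ioo p q).linear_preimage reLm).inter
    ((convex_Ioo 0 a).linear_preimage imLm)
  have n0 : ∀ w ∈ U, G w ≠ 0 := fun w hw => norm_pos_iff.mp (e0.trans_le (hb w hw).1)
  have ib : ∀ w ∈ U, ‖(G w)⁻¹‖ ≤ ε⁻¹ := fun w hw => by
    rw [norm_inv]
    exact inv_anti₀ e0 (hb w hw).1
  obtain ⟨E, c1, d1⟩ := prim hU cU hG fun w hw => (hb w hw).2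
  obtain ⟨F, c2, d2⟩ := prim hU cU (hG.inv n0) ib
  have mU : ∀ x ∈ Ioo p q, ∀ y ∈ Ioo 0 a, (x + y * I : ℂ) ∈ U := fun x hx y hy =>
    ⟨by simpa using hx, by simpa using hy⟩
  have ev : ∀ᶠ y : ℝ in 𝓝[>] 0, y ∈ Ioo 0 a := Ioo_mem_nhdsGT a0
  have cst : ∀ c ∈ Ioo p q, ∀ x ∈ Ioo p q, E x - conj (F x) = E c - conj (F c) := by
    intro c hc x hx
    have sb : uIcc c x ⊆ Ioo p q := ordConnected_Ioo.uIcc_subset hc hx
    have ct : ∀ y ∈ Ioo 0 a, ContinuousOn (fun t : ℝ => G (t + y * I) - conj (G (t + y * I))⁻¹)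
        (uIcc c x) := fun y hy => by
      have := hG.continuousOn.comp (f := fun t : ℝ => (t + y * I : ℂ)) (s := uIcc c x) (by fun_prop)
        fun t ht => mU t (sb ht) y hy
      exact this.sub (continuous_conj.comp_continuousOn
        (this.inv₀ fun t ht => n0 _ (mU t (sb ht) y hy)))
    have t1 := intervalIntegral.tendsto_integral_filter_of_dominated_convergence (μ := volume)
      (a := c) (b := x) (l := 𝓝[>] (0 : ℝ)) (f := fun _ => (0 : ℂ))
      (F := fun (y : ℝ) (t : ℝ) => G (t + y * I) - conj (G (t + y * I))⁻¹) (fun _ => 1 + ε⁻¹)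
      (ev.mono fun y hy => ((ct y hy).mono uIoc_subset_uIcc).aestronglyMeasurable measurableSet_uIoc)
      (ev.mono fun y hy => Eventually.of_forall fun t ht => (norm_sub_le _ _).trans
        (add_le_add (hb _ (mU t (sb (uIoc_subset_uIcc ht)) y hy)).2 (by
          rw [norm_conj]
          exact ib _ (mU t (sb (uIoc_subset_uIcc ht)) y hy))))
      intervalIntegrable_const (hl.mono fun t ht h => by
        rw [tendsto_zero_iff_norm_tendsto_zero]
        have := ((ht.pow 2).sub_const 1).div ht one_ne_zero |>.abs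
        refine (this.congr' (ev.mono fun y hy => ?_)).trans (by simp)
        have z0 := n0 _ (mU t (sb (uIoc_subset_uIcc h)) y hy)
        simp only [Pi.div_apply]
        generalize G (t + y * I) = z at z0 ⊢
        have : z - conj z⁻¹ = ((‖z‖ ^ 2 - 1 : ℝ) : ℂ) / conj z := by
          have : conj z ≠ 0 := by simpa using z0
          rw [map_inv₀, ofReal_sub, ← normSq_eq_norm_sq, ← mul_conj]
          field_simp
          simp
        rw [this, norm_div, norm_conj, norm_real, abs_div, abs_norm, Real.norm_eq_abs])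
    have t2 : ∀ x : ℝ, Tendsto (fun y : ℝ => E (x + y * I) - conj (F (x + y * I))) (𝓝[>] 0)
        (𝓝 (E x - conj (F x))) := fun x => by
      have : Continuous fun y : ℝ => E (x + y * I) - conj (F (x + y * I)) := by fun_prop
      simpa using (this.tendsto 0).mono_left nhdsWithin_le_nhds
    refine sub_eq_zero.mp (tendsto_nhds_unique (((t2 x).sub (t2 c)).congr' (ev.mono fun y hy =>
      (intervalIntegral.integral_eq_sub_of_hasDerivAt (f := fun t : ℝ => E (t + y * I) -
        conj (F (t + y * I))) (fun t ht => ?_) (ct y hy).intervalIntegrable).symm)) (by simpa using t1))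
    have h0 : HasDerivAt (fun t : ℂ => t + y * I) 1 t := (hasDerivAt_id _).add_const _
    have h1 := ((d1 _ (mU t (sb ht) y hy)).comp (t : ℂ) h0).comp_ofReal
    have h2 := ((d2 _ (mU t (sb ht) y hy)).comp (t : ℂ) h0).comp_ofReal.star
    simpa using h1.fun_sub h2
  rcases (Ioo p q).eq_empty_or_nonempty with h | ⟨c, hc⟩
  · exact ⟨G, fun w hw => absurd hw.1 (by simp [h]), fun _ _ => rfl,
      fun w hw => absurd hw.1 (by simp [h])⟩
  set Φ : ℂ → ℂ := fun w => if 0 ≤ w.im then E w else conj (F (conj w)) + (E c - conj (F c))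
  have p1 : ∀ w ∈ U, HasDerivAt Φ (G w) w := fun w hw => (d1 w hw).congr_of_eventuallyEq
    ((hU.eventually_mem hw).mono fun x hx => if_pos hx.2.1.le)
  have p2 : ∀ w ∈ Ioo p q ×ℂ Ioo (-a) a, w.im < 0 → conj w ∈ U ∧
      HasDerivAt Φ (conj (G (conj w))⁻¹) w := fun w hw h => by
    have m : conj w ∈ U := ⟨by simpa using hw.1, by
      have := hw.2.1
      simp only [mem_preimage, conj_im, mem_Ioo]
      constructor <;> linarith⟩
    have := ((d2 _ m).conj_conj).add_const (E c - conj (F c))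
    rw [conj_conj] at this
    exact ⟨m, this.congr_of_eventuallyEq (((isOpen_lt continuous_im continuous_const).eventually_mem
      h).mono fun x hx => if_neg (not_le.mpr hx))⟩
  have p3 : DifferentiableOn ℂ Φ (Ioo p q ×ℂ Ioo (-a) a) := by
    refine glue hV (ContinuousOn.if (fun w hw => ?_) c1.continuousOn (by fun_prop))
      fun w hw h => ?_
    · have h : w.im = 0 := by
        have := hw.2
        rwa [frontier_setOf_le_im] at this
      have e : w = (w.re : ℂ) := Complex.ext rfl (by simpa using h)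
      have := cst c hc w.re hw.1.1
      rw [e, conj_ofReal]
      linear_combination this
    · rcases lt_or_gt_of_ne h with h | h
      · exact (p2 w hw h).2.differentiableAt
      · exact (p1 w ⟨hw.1, h, hw.2.2⟩).differentiableAt
  have p4 := p3.deriv hV
  have i0 := inv_pos.mpr e0
  refine ⟨deriv Φ, p4, fun w hw => (p1 w hw).deriv, fun w hw => ?_⟩
  rcases lt_trichotomy w.im 0 with h | h | h
  · rw [(p2 w hw h).2.deriv, norm_conj]
    linarith [ib _ (p2 w hw h).1]
  · have e : w = (w.re : ℂ) + (0 : ℝ) * I := Complex.ext (by simp) (by simpa using h)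
    have := ((p4.continuousOn.continuousAt (hV.mem_nhds hw)).norm).comp_of_eq
      (f := fun y : ℝ => (w.re + y * I : ℂ)) (x := 0) (by fun_prop) e.symm
    have := le_of_tendsto (this.tendsto.mono_left (nhdsWithin_le_nhds (s := Ioi 0)))
      (ev.mono fun y hy => (congrArg norm (p1 _ (mU _ hw.1 y hy)).deriv).trans_le
        (hb _ (mU _ hw.1 y hy)).2)
    simp only [Function.comp] at this
    rw [← e] at this
    linarith
  · rw [(p1 w ⟨hw.1, h, hw.2.2⟩).deriv]
    linarith [(hb w ⟨hw.1, h, hw.2.2⟩).2]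

theorem cont {Θ : ℂ → ℂ} (hd : DifferentiableOn ℂ Θ (ball 0 1)) (h1 : ∀ z ∈ ball (0 : ℂ) 1, ‖Θ z‖ ≤ 1)
    (hl : ∀ᵐ θ : ℝ, ∃ w : ℂ, ‖w‖ = 1 ∧ Tendsto (fun r : ℝ => Θ (r * ex θ)) (𝓝[<] 1) (𝓝 w))
    {ζ : ℂ} (hζ : ‖ζ‖ = 1) {d ε : ℝ} (d0 : 0 < d) (d1 : d ≤ 1) (e0 : 0 < ε)
    (hb : ∀ z ∈ ball ζ d ∩ ball 0 1, ε ≤ ‖Θ z‖) :
    ∃ g : ℂ → ℂ, DifferentiableOn ℂ g (ball ζ (d / 8)) ∧ EqOn g Θ (ball ζ (d / 8) ∩ ball 0 1) ∧
      ‖deriv g ζ‖ ≤ 16 * (1 + ε⁻¹) / d := by
  obtain ⟨c, hc⟩ : ∃ c : ℝ, exp (c * I) = ζ := ⟨ζ.arg, by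
    simpa [hζ] using norm_mul_exp_arg_mul_I ζ⟩
  have z0 : ζ ≠ 0 := norm_pos_iff.mp (by linarith)
  have m1 : ∀ w : ℂ, 0 < w.im → exp (w * I) ∈ ball (0 : ℂ) 1 := fun w hw => by
    rw [mem_ball_zero_iff, norm_exp]
    simpa using hw
  obtain ⟨K, k1, k2, k3⟩ := refl (G := fun w => Θ (exp (w * I))) (p := c - d / 4) (q := c + d / 4)
    (a := d / 4) (by linarith) e0 (hd.comp (by fun_prop) fun w hw => m1 w hw.2.1)
    (fun w hw => ⟨hb _ ⟨by
      have b := norm_le_abs_re_add_abs_im ((w - c) * I)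
      have b1 : |w.im| < d / 4 := abs_lt.mpr ⟨by linarith [hw.2.1], hw.2.2⟩
      have b2 : |w.re - c| < d / 4 := abs_lt.mpr ⟨by linarith [hw.1.1], by linarith [hw.1.2]⟩
      simp only [mul_re, sub_re, ofReal_re, I_re, mul_zero, sub_im, ofReal_im, sub_zero, I_im,
        mul_one, zero_sub, abs_neg, mul_im, add_zero] at b
      rw [mem_ball, dist_eq_norm, show exp (w * I) - ζ = ζ * (exp ((w - c) * I) - 1) by
        rw [← hc, mul_sub, ← exp_add]
        congr 2 <;> ring, norm_mul, hζ, one_mul]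
      linarith [norm_exp_sub_one_le (x := (w - c) * I) (by linarith)], m1 w hw.2.1⟩,
      h1 _ (m1 w hw.2.1)⟩)
    (hl.mono fun x ⟨w, w1, hw⟩ => by
      have t : Tendsto (fun y : ℝ => Real.exp (-y)) (𝓝[>] 0) (𝓝[<] 1) :=
        tendsto_nhdsWithin_iff.mpr ⟨by
          have : Continuous fun y : ℝ => Real.exp (-y) := by fun_prop
          simpa using (this.tendsto 0).mono_left nhdsWithin_le_nhds,
          eventually_mem_nhdsWithin.mono fun y hy => by simpa using hy⟩
      refine w1 ▸ (hw.comp t).norm.congr fun y => ?_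
      simp only [Function.comp, ex, ofReal_exp, ← exp_add]
      congr 3
      push_cast
      linear_combination (-y : ℂ) * I_mul_I)
  have q1 : ∀ z ∈ ball ζ (d / 8), ‖z / ζ - 1‖ < d / 8 := fun z hz => by
    rwa [div_sub_one z0, norm_div, hζ, div_one, ← dist_eq_norm]
  have q2 : ∀ z ∈ ball ζ (d / 8), (c - I * log (z / ζ) : ℂ) ∈
      Ioo (c - d / 4) (c + d / 4) ×ℂ Ioo (-(d / 4)) (d / 4) := fun z hz => by
    have b := norm_log_one_add_half_le_self (z := z / ζ - 1) (by linarith [q1 z hz])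
    rw [add_sub_cancel] at b
    have b1 := abs_le.mp (abs_re_le_norm (log (z / ζ)))
    have b2 := abs_le.mp (abs_im_le_norm (log (z / ζ)))
    have := q1 z hz
    refine ⟨?_, ?_⟩ <;> simp only [mem_preimage, mem_Ioo, sub_re, ofReal_re, mul_re, I_re, zero_mul,
      I_im, one_mul, zero_sub, sub_im, ofReal_im, mul_im, zero_add] <;> constructor <;> linarith
  have q3 : ∀ z ∈ ball ζ (d / 8), z / ζ ∈ slitPlane := fun z hz => by
    simpa using mem_slitPlane_of_norm_lt_one (z := z / ζ - 1) (by linarith [q1 z hz])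
  have g1 : DifferentiableOn ℂ (fun z => K (c - I * log (z / ζ))) (ball ζ (d / 8)) :=
    k1.comp (fun z hz => ((((differentiableAt_id.div_const ζ).clog (q3 z hz)).const_mul
      I).const_sub _).differentiableWithinAt) q2
  refine ⟨_, g1, fun z hz => ?_, (norm_deriv_le_div_of_mapsTo_ball g1 (R₂ := 2 * (1 + ε⁻¹))
    (fun z hz => ?_) (by linarith)).trans_eq (by field_simp; ring)⟩
  · have e : exp ((c - I * log (z / ζ)) * I) = z := by
      rw [show (c - I * log (z / ζ)) * I = c * I + log (z / ζ) by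
        linear_combination (-log (z / ζ)) * I_mul_I, exp_add, hc,
        exp_log (slitPlane_ne_zero (q3 z hz.1))]
      field_simp
    refine (k2 ⟨(q2 z hz.1).1, ?_, (q2 z hz.1).2.2⟩).trans (congrArg Θ e)
    have := mem_ball_zero_iff.mp hz.2
    rw [← e, norm_exp, Real.exp_lt_one_iff] at this
    simpa using this
  · rw [mem_closedBall, dist_eq_norm]
    linarith [norm_sub_le (K (c - I * log (z / ζ))) (K (c - I * log (ζ / ζ))), k3 _ (q2 z hz),
      k3 _ (q2 ζ (mem_ball_self (by linarith)))]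

theorem null {f : ℂ → ℂ} (hd : DifferentiableOn ℂ f (ball 0 1))
    (hc : ContinuousOn f (closedBall 0 1)) {u : ℂ} (hu : u ∈ ball (0 : ℂ) 1) (u0 : f u ≠ 0) :
    volume {θ : ℝ | f (ex θ) = 0} = 0 := by
  refine measure_null_of_locally_null _ fun x hx => ⟨_, inter_mem_nhdsWithin _
    (Ioc_mem_nhds (show x - Real.pi < x by linarith [Real.pi_pos])
      (show x < x - Real.pi + 2 * Real.pi by linarith [Real.pi_pos])), ?_⟩
  generalize x - Real.pi = a
  set U := {θ : ℝ | f (ex θ) = 0} ∩ Ioc a (a + 2 * Real.pi)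
  by_contra U0
  have c := ex_cont
  have em : ∀ θ, ex θ ∈ closedBall (0 : ℂ) 1 := fun θ => mem_closedBall_zero_iff.mpr (ex_norm θ).le
  have hU : MeasurableSet U :=
    (isClosed_eq (hc.comp_continuous c em) continuous_const).measurableSet.inter measurableSet_Ioc
  have n0 : ∀ z ∈ ball (0 : ℂ) 1, ∀ θ, ex θ - z ≠ 0 := fun z hz θ =>
    norm_pos_iff.mp ((sub_pos.mpr (mem_ball_zero_iff.mp hz)).trans_le (ex_ge θ z))
  have i1 : ∀ {E : Type} [NormedAddCommGroup E] {g : ℝ → E}, Continuous g →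
      IntegrableOn g (Ioc a (a + 2 * Real.pi)) := fun hg =>
    hg.integrableOn_Icc.mono_set Ioc_subset_Icc_self
  have ii : ∀ {E : Type} [NormedAddCommGroup E] {g : ℝ → E}, Continuous g → IntegrableOn g U :=
    fun hg => (i1 hg).mono_set inter_subset_right
  have k1 : ∀ z ∈ ball (0 : ℂ) 1, Continuous fun θ => (ex θ + z) / (ex θ - z) := fun z hz =>
    Continuous.div (by fun_prop) (by fun_prop) (n0 z hz)
  have k2 : ∀ z ∈ ball (0 : ℂ) 1, Continuous fun θ => (1 - ‖z‖ ^ 2) / ‖ex θ - z‖ ^ 2 := fun z hz =>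
    Continuous.div (by fun_prop) (by fun_prop) fun θ => pow_ne_zero 2 (norm_ne_zero_iff.mpr (n0 z hz θ))
  have k4 : ∀ z ∈ ball (0 : ℂ) 1, 0 < 1 - ‖z‖ ^ 2 := fun z hz => by
    nlinarith [mem_ball_zero_iff.mp hz, norm_nonneg z]
  have k3 : ∀ z ∈ ball (0 : ℂ) 1, ∀ θ, 0 < (1 - ‖z‖ ^ 2) / ‖ex θ - z‖ ^ 2 := fun z hz θ =>
    div_pos (k4 z hz) (pow_pos (norm_pos_iff.mpr (n0 z hz θ)) 2)
  have e1 : ∀ z ∈ ball (0 : ℂ) 1, (∫ θ in U, (ex θ + z) / (ex θ - z)).re =
      ∫ θ in U, (1 - ‖z‖ ^ 2) / ‖ex θ - z‖ ^ 2 := fun z hz => by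
    refine (integral_re (ii (k1 z hz))).symm.trans (integral_congr_ae (Eventually.of_forall
      fun θ => ?_))
    have := congrFun (poissonKernel_eq_re_herglotzRieszKernel (c := 0) (w := z)) (ex θ)
    simpa [poissonKernel_def, herglotzRieszKernel_def, ex_norm] using this.symm
  have hH : DifferentiableOn ℂ (fun z => ∫ θ in U, (ex θ + z) / (ex θ - z)) (ball 0 1) := by
    intro z hz
    obtain ⟨r, r0, r1⟩ := exists_between (mem_ball_zero_iff.mp hz)
    have b1 : ball (0 : ℂ) r ⊆ ball 0 1 := ball_subset_ball r1.le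
    refine (hasDerivAt_integral_of_dominated_loc_of_deriv_le (μ := volume.restrict U)
      (F := fun z θ => (ex θ + z) / (ex θ - z)) (F' := fun z θ => 2 * ex θ / (ex θ - z) ^ 2)
      (bound := fun _ => 2 / (1 - r) ^ 2) (isOpen_ball.mem_nhds (mem_ball_zero_iff.mpr r0))
      ((isOpen_ball.eventually_mem hz).mono fun y hy => (k1 y hy).aestronglyMeasurable)
      (ii (k1 z hz)) (Continuous.div (by fun_prop) (by fun_prop) fun θ =>
        pow_ne_zero 2 (n0 z hz θ)).aestronglyMeasurable (Eventually.of_forall fun θ y hy => ?_)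
      (ii continuous_const) (Eventually.of_forall fun θ y hy => ?_)).2.differentiableAt.differentiableWithinAt
    · rw [norm_div, norm_mul, ex_norm, norm_pow, Complex.norm_two, mul_one]
      have := ex_ge θ y
      have := mem_ball_zero_iff.mp hy
      exact div_le_div_of_nonneg_left zero_le_two (pow_pos (by linarith) 2)
        (pow_le_pow_left₀ (by linarith) (by linarith) 2)
    · refine (((hasDerivAt_id y).const_add (ex θ)).div ((hasDerivAt_id y).const_sub (ex θ))
        (n0 y (b1 hy) θ)).congr_deriv ?_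
      simp only [id]
      ring
  have p2 := Real.two_pi_pos
  have up : ∀ z ∈ ball (0 : ℂ) 1, ∫ θ in U, (1 - ‖z‖ ^ 2) / ‖ex θ - z‖ ^ 2 ≤ 2 * Real.pi := by
    intro z hz
    refine (setIntegral_mono_set (i1 (k2 z hz)) (Eventually.of_forall fun θ => (k3 z hz θ).le)
      inter_subset_right.eventuallyLE).trans_eq ?_
    have := (InnerProductSpace.HarmonicOnNhd.circleAverage_poissonKernel_smul
      (f := fun _ => (1 : ℝ)) (c := 0) (R := 1) (fun _ _ => InnerProductSpace.harmonicAt_const _) hz)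
    rw [Real.circleAverage_eq_integral_add a, smul_eq_mul, inv_mul_eq_iff_eq_mul₀ p2.ne',
      mul_one] at this
    have e := intervalIntegral.integral_comp_add_right (a := 0) (b := 2 * Real.pi)
      (fun θ => (1 - ‖z‖ ^ 2) / ‖ex θ - z‖ ^ 2) a
    rw [zero_add, add_comm (2 * Real.pi)] at e
    rw [← intervalIntegral.integral_of_le (by linarith), ← e]
    refine (intervalIntegral.integral_congr fun θ _ => ?_).trans this
    simp only [poissonKernel_def, circleMap, Pi.smul_apply', smul_eq_mul, sub_zero, zero_add,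
      ofReal_one, one_mul, mul_one]
    rw [← ex, ex_norm, one_pow]
  have h0 : 0 < ∫ θ in U, (1 - ‖u‖ ^ 2) / ‖ex θ - u‖ ^ 2 :=
    (setIntegral_pos_iff_support_of_nonneg_ae (Eventually.of_forall fun θ => (k3 u hu θ).le)
      (ii (k2 u hu))).mpr (by
        rw [Function.support_eq_univ fun θ => (k3 u hu θ).ne', univ_inter]
        exact pos_iff_ne_zero.mpr U0)
  obtain ⟨M, hM⟩ := (isCompact_closedBall (0 : ℂ) 1).exists_bound_of_continuousOn hc
  have f0 := norm_pos_iff.mpr u0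
  have M0 := f0.trans_le (hM u (ball_subset_closedBall hu))
  obtain ⟨K, K0, hK⟩ : ∃ K : ℝ, 0 < K ∧ M * Real.exp 1 <
      ‖f u‖ * Real.exp (K * ∫ θ in U, (1 - ‖u‖ ^ 2) / ‖ex θ - u‖ ^ 2) :=
    ((eventually_gt_atTop 0).and (((Real.tendsto_exp_atTop.comp (tendsto_id.atTop_mul_const
      h0)).const_mul_atTop f0).eventually_gt_atTop _)).exists
  obtain ⟨τ, τ0, hτ⟩ := Metric.uniformContinuousOn_iff.mp
    ((isCompact_closedBall _ _).uniformContinuousOn_of_continuous hc) _
    (show 0 < M / Real.exp (K * (2 * Real.pi)) by positivity)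
  have : ∀ᶠ r : ℝ in 𝓝[<] 1, K * ((1 - r ^ 2) / τ ^ 2 * (2 * Real.pi)) < 1 := by
    have : Continuous fun r : ℝ => K * ((1 - r ^ 2) / τ ^ 2 * (2 * Real.pi)) := by fun_prop
    exact ((this.tendsto 1).mono_left nhdsWithin_le_nhds).eventually_lt_const (by simp)
  obtain ⟨r, r2, r0, r1⟩ := (this.and (Ioo_mem_nhdsLT (mem_ball_zero_iff.mp hu))).exists
  have sb : closedBall (0 : ℂ) r ⊆ ball 0 1 := closedBall_subset_ball r1
  have := norm_le_of_forall_mem_frontier_norm_le (U := ball 0 r) isBounded_ball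
    (f := fun z => f z * exp (K * ∫ θ in U, (ex θ + z) / (ex θ - z)))
    (((hd.mul (hH.const_mul _).cexp).mono (closure_ball_subset_closedBall.trans sb)).diffContOnCl)
    (C := M * Real.exp 1) (fun z hz => ?_) (subset_closure (mem_ball_zero_iff.mpr r0))
  · rw [norm_mul, norm_exp, re_ofReal_mul, e1 u hu] at this
    linarith
  have zr : ‖z‖ = r := by simpa using frontier_ball_subset_sphere hz
  have z1 : z ∈ ball (0 : ℂ) 1 := mem_ball_zero_iff.mpr (by linarith)
  rw [norm_mul, norm_exp, re_ofReal_mul, e1 z z1]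
  by_cases h : ∃ θ ∈ U, ‖ex θ - z‖ < τ
  · obtain ⟨θ, t1, t2⟩ := h
    have b := hτ _ (em θ) z (ball_subset_closedBall z1) (by rwa [dist_eq_norm])
    rw [t1.1, dist_zero_left, lt_div_iff₀ (Real.exp_pos _)] at b
    have b1 := mul_le_mul_of_nonneg_left (Real.exp_le_exp.mpr
      (mul_le_mul_of_nonneg_left (up z z1) K0.le)) (norm_nonneg (f z))
    nlinarith [Real.add_one_le_exp 1]
  · push Not at h
    refine mul_le_mul (hM z (ball_subset_closedBall z1)) (Real.exp_le_exp.mpr (le_trans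
      (mul_le_mul_of_nonneg_left ?_ K0.le) r2.le)) (Real.exp_pos _).le M0.le
    refine (setIntegral_mono_on (ii (k2 z z1)) (ii (continuous_const (y := (1 - r ^ 2) / τ ^ 2)))
      hU fun θ t => ?_).trans ?_
    · rw [← zr]
      exact div_le_div_of_nonneg_left (k4 z z1).le (by positivity)
        (pow_le_pow_left₀ τ0.le (h θ t) 2)
    · rw [setIntegral_const, smul_eq_mul, mul_comm]
      refine mul_le_mul_of_nonneg_left ((measureReal_mono inter_subset_right
        measure_Ioc_lt_top.ne).trans_eq ?_) (div_nonneg (zr ▸ (k4 z z1).le) (sq_nonneg _))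
      rw [Real.volume_real_Ioc_of_le (by linarith), add_sub_cancel_left]

end Pool.Agent.H.MP_32de40_an
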