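import Pool.Agent.H.MP_32de40_an.A

set_option autoImplicit false
open Filter Topology Metric Set MeasureTheory Complex ComplexConjugate
open Pool.Agent.H.MP_5011cf_an

namespace Pool.Agent.H.MP_32de40_an

theorem mid (a w : ℂ) : ‖1 - conj a * w‖ ^ 2 - ‖w - a‖ ^ 2 = (1 - ‖a‖ ^ 2) * (1 - ‖w‖ ^ 2) := by
  simp only [← normSq_eq_norm_sq, normSq_apply, sub_re, sub_im, mul_re, mul_im, conj_re, conj_im,
    one_re, one_im]
  ring

theorem mge (a : ℂ) {w : ℂ} (hw : ‖w‖ ≤ 1) : 1 - ‖a‖ ≤ ‖1 - conj a * w‖ := by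
  have := norm_sub_norm_le 1 (conj a * w)
  rw [norm_one, norm_mul, norm_conj] at this
  nlinarith [norm_nonneg a]

theorem mne {a w : ℂ} (ha : ‖a‖ < 1) (hw : ‖w‖ ≤ 1) : 1 - conj a * w ≠ 0 :=
  norm_pos_iff.mp ((sub_pos.mpr ha).trans_le (mge a hw))

theorem mid2 {a w : ℂ} (ha : ‖a‖ < 1) (hw : ‖w‖ ≤ 1) : 1 - ‖(w - a) / (1 - conj a * w)‖ ^ 2 =
    (1 - ‖a‖ ^ 2) * (1 - ‖w‖ ^ 2) / ‖1 - conj a * w‖ ^ 2 := by
  have := norm_ne_zero_iff.mpr (mne ha hw)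
  rw [← mid, norm_div, div_pow, sub_div, div_self (pow_ne_zero 2 this)]

theorem mlt {a w : ℂ} (ha : ‖a‖ < 1) (hw : ‖w‖ < 1) : ‖(w - a) / (1 - conj a * w)‖ < 1 := by
  have := div_pos (mul_pos (show 0 < 1 - ‖a‖ ^ 2 by nlinarith [norm_nonneg a])
    (show 0 < 1 - ‖w‖ ^ 2 by nlinarith [norm_nonneg w])) (pow_pos (norm_pos_iff.mpr (mne ha hw.le)) 2)
  rw [← mid2 ha hw.le] at this
  nlinarith [norm_nonneg ((w - a) / (1 - conj a * w))]

theorem mle {a w : ℂ} (ha : ‖a‖ < 1) (hw : ‖w‖ ≤ 1) : ‖(w - a) / (1 - conj a * w)‖ ≤ 1 := by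
  have := div_nonneg (mul_nonneg (show 0 ≤ 1 - ‖a‖ ^ 2 by nlinarith [norm_nonneg a])
    (show 0 ≤ 1 - ‖w‖ ^ 2 by nlinarith [norm_nonneg w])) (sq_nonneg ‖1 - conj a * w‖)
  rw [← mid2 ha hw] at this
  nlinarith [norm_nonneg ((w - a) / (1 - conj a * w))]

theorem pick {Θ : ℂ → ℂ} (hd : DifferentiableOn ℂ Θ (ball 0 1))
    (h1 : ∀ z ∈ ball (0 : ℂ) 1, ‖Θ z‖ ≤ 1) {a w : ℂ} (ha : ‖a‖ < 1) (hw : ‖w‖ < 1)
    (hb : ‖Θ a‖ < 1) :
    ‖(Θ w - Θ a) / (1 - conj (Θ a) * Θ w)‖ ≤ ‖(w - a) / (1 - conj a * w)‖ := by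
  have na : ‖-a‖ < 1 := by rwa [norm_neg]
  have m : ∀ u ∈ ball (0 : ℂ) 1, (u - -a) / (1 - conj (-a) * u) ∈ ball (0 : ℂ) 1 := fun u hu =>
    mem_ball_zero_iff.mpr (mlt na (mem_ball_zero_iff.mp hu))
  have d1 : DifferentiableOn ℂ (fun u => Θ ((u - -a) / (1 - conj (-a) * u))) (ball 0 1) :=
    hd.comp (DifferentiableOn.div (by fun_prop) (by fun_prop) fun u hu =>
      mne na (mem_ball_zero_iff.mp hu).le) m
  have := norm_le_norm_of_mapsTo_ball (f := fun u => (Θ ((u - -a) / (1 - conj (-a) * u)) - Θ a) /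
    (1 - conj (Θ a) * Θ ((u - -a) / (1 - conj (-a) * u))))
    ((d1.sub_const _).div ((d1.const_mul _).const_sub _) fun u hu => mne hb (h1 _ (m u hu)))
    (fun u hu => mem_closedBall_zero_iff.mpr (mle hb (h1 _ (m u hu)))) (by simp) (mlt ha hw)
  have e : ((w - a) / (1 - conj a * w) - -a) / (1 - conj (-a) * ((w - a) / (1 - conj a * w))) = w := by
    have n1 := mne ha hw.le
    rw [div_eq_iff (mne na (mlt ha hw).le), map_neg]
    have := div_mul_cancel₀ (w - a) n1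
    linear_combination this
  rwa [e] at this

theorem rad {η : ℂ} (hη : ‖η‖ = 1) {r : ℝ} (r0 : 0 < r) :
    ∀ᶠ t : ℝ in 𝓝[<] 1, t ∈ Ioo (0 : ℝ) 1 ∧ ‖t * η‖ = t ∧ t * η ∈ ball η r ∩ ball 0 1 := by
  have : Continuous fun t : ℝ => t * η := by fun_prop
  filter_upwards [Ioo_mem_nhdsLT one_pos, ((this.tendsto' 1 η (by simp)).mono_left
    nhdsWithin_le_nhds).eventually (ball_mem_nhds η r0)] with t h1 h2
  have e : ‖t * η‖ = t := by rw [norm_mul, hη, mul_one, norm_real, Real.norm_of_nonneg h1.1.le]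
  exact ⟨h1, e, h2, mem_ball_zero_iff.mpr (e.trans_lt h1.2)⟩

theorem radt (η : ℂ) : Tendsto (fun t : ℝ => t * η) (𝓝[<] 1) (𝓝 η) :=
  ((show Continuous fun t : ℝ => t * η by fun_prop).tendsto' 1 η (by simp)).mono_left
    nhdsWithin_le_nhds

theorem julia {Θ : ℂ → ℂ} (hd : DifferentiableOn ℂ Θ (ball 0 1))
    (h1 : ∀ z ∈ ball (0 : ℂ) 1, ‖Θ z‖ ≤ 1) {a η : ℂ} (ha : ‖a‖ < 1) (hb : ‖Θ a‖ < 1 / 2)
    (hη : ‖η‖ = 1) {r : ℝ} (r0 : 0 < r) {g : ℂ → ℂ} (g1 : DifferentiableOn ℂ g (ball η r))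
    (g2 : EqOn g Θ (ball η r ∩ ball 0 1)) (g3 : ‖g η‖ = 1) :
    1 - ‖a‖ ≤ 8 * ‖deriv g η‖ * ‖1 - conj a * η‖ ^ 2 := by
  have t1 := (hasDerivAt_iff_tendsto_slope.mp
    (g1.differentiableAt (ball_mem_nhds η r0)).hasDerivAt).comp
    (tendsto_nhdsWithin_iff.mpr ⟨radt η, (rad hη r0).mono fun t ht e => by
      have := ht.2.1
      rw [mem_singleton_iff.mp e, hη] at this
      exact ht.1.2.ne' this⟩)
  refine ge_of_tendsto ((t1.norm.const_mul 8).mul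
    ((((radt η).const_mul (conj a)).const_sub 1).norm.pow 2)) ((rad hη r0).mono fun t ht => ?_)
  obtain ⟨⟨t0, t2⟩, e, m⟩ := ht
  have w1 := mem_ball_zero_iff.mp m.2
  have b1 := pow_le_pow_left₀ (norm_nonneg _) (pick hd h1 ha w1 (by linarith)) 2
  have b2 := mid2 ha w1.le
  have b3 := mid2 (a := Θ a) (by linarith) (h1 _ m.2)
  have b4 := mge (Θ a) (h1 _ m.2)
  have b5 := norm_sub_norm_le (g η) (g (t * η))
  have b6 := h1 _ m.2
  have q0 := pow_pos (norm_pos_iff.mpr (mne ha w1.le)) 2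
  have e2 : ‖t * η - η‖ = 1 - t := by
    rw [← sub_one_mul, norm_mul, hη, mul_one, ← ofReal_one, ← ofReal_sub, norm_real,
      Real.norm_of_nonpos (by linarith), neg_sub]
  simp only [Function.comp, slope_def_field]
  rw [norm_div, e2, norm_sub_rev]
  rw [g3, g2 m] at b5
  rw [g2 m]
  rw [e] at b2
  have b7 : (1 - ‖Θ a‖ ^ 2) * (1 - ‖Θ (t * η)‖ ^ 2) / ‖1 - conj (Θ a) * Θ (t * η)‖ ^ 2 ≤
      8 * ‖g η - Θ (t * η)‖ := by
    have := pow_le_pow_left₀ (by norm_num) (show 1 / 2 ≤ ‖1 - conj (Θ a) * Θ (t * η)‖ by linarith) 2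
    rw [div_le_iff₀ (by linarith)]
    have p := norm_nonneg (Θ (t * η))
    have : (1 - ‖Θ a‖ ^ 2) * (1 - ‖Θ (t * η)‖ ^ 2) ≤ 1 * (1 - ‖Θ (t * η)‖ ^ 2) :=
      mul_le_mul_of_nonneg_right (by nlinarith) (by nlinarith)
    nlinarith [norm_nonneg (g η - Θ (t * η))]
  have b8 : (1 - ‖a‖ ^ 2) * (1 - t ^ 2) / ‖1 - conj a * (t * η)‖ ^ 2 ≤ 8 * ‖g η - Θ (t * η)‖ := by
    linarith
  rw [div_le_iff₀ q0] at b8
  rw [← mul_div_assoc, div_mul_eq_mul_div, le_div_iff₀ (by linarith)]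
  have p := norm_nonneg a
  have : (1 - ‖a‖) * (1 - t) ≤ (1 - ‖a‖ ^ 2) * (1 - t ^ 2) :=
    mul_le_mul (by nlinarith) (by nlinarith) (by linarith) (by nlinarith)
  linarith

structure Md (W : ℝ → ℝ) : Prop where
  pos : ∀ t, 0 < t → 0 < W t
  mono : ∀ s t, 0 < s → s ≤ t → W s ≤ W t
  sub : ∀ s t, 0 < s → s ≤ t → s * W t ≤ t * W s

theorem md {ω : ℝ → ℝ} {L : ℝ} (h1 : MonotoneOn ω (Ioo 0 1)) (h2 : ∀ t ∈ Ioo (0 : ℝ) 1, 0 < ω t)
    (h3 : AntitoneOn (fun t => ω t / t) (Ioo 0 1)) (h4 : Tendsto ω (𝓝[<] 1) (𝓝 L)) :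
    Md fun t => if t < 1 then ω t else L := by
  have a1 : ∀ s ∈ Ioo (0 : ℝ) 1, ω s ≤ L := fun s hs => ge_of_tendsto h4
    (mem_of_superset (Ioo_mem_nhdsLT hs.2) fun t ht => h1 hs ⟨hs.1.trans ht.1, ht.2⟩ ht.1.le)
  have a2 : ∀ s ∈ Ioo (0 : ℝ) 1, L ≤ ω s / s := fun s hs => by
    have := le_of_tendsto (h4.div (tendsto_id.mono_left nhdsWithin_le_nhds) one_ne_zero)
      (mem_of_superset (Ioo_mem_nhdsLT hs.2) fun t ht => h3 hs ⟨hs.1.trans ht.1, ht.2⟩ ht.1.le)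
    rwa [div_one] at this
  have L0 : 0 < L := (h2 (1 / 2) (by norm_num)).trans_le (a1 _ (by norm_num))
  refine ⟨fun t t0 => ?_, fun s t s0 h => ?_, fun s t s0 h => ?_⟩ <;> split_ifs with h5 h6 h6
  · exact h2 t ⟨t0, h5⟩
  · exact L0
  · exact h1 ⟨s0, h5⟩ ⟨by linarith, h6⟩ h
  · exact a1 s ⟨s0, h5⟩
  · linarith
  · rfl
  · have := h3 ⟨s0, h6⟩ ⟨by linarith, h5⟩ h
    simp only [div_le_div_iff₀ (s0.trans_le h) s0] at this
    linarith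
  · linarith
  · have := a2 s ⟨s0, h6⟩
    rw [le_div_iff₀ s0] at this
    nlinarith [h2 s ⟨s0, h6⟩]
  · nlinarith

theorem tam {W : ℝ → ℝ} (hW : Md W) {f : ℂ → ℂ} (hd : DifferentiableOn ℂ f (ball 0 1))
    (hc : ContinuousOn f (closedBall 0 1)) {C δ₀ : ℝ} (d0 : 0 < δ₀)
    (hm : ∀ δ ∈ Ioo 0 δ₀, ∀ x h : ℝ, |h| ≤ δ → ‖f (ex (x + h)) - f (ex x)‖ ≤ C * W δ) :
    ∃ B, 0 ≤ B ∧ ∀ ζ : ℂ, ‖ζ‖ = 1 → ∀ s, 0 < s → ∀ z ∈ ball (0 : ℂ) 1, ‖z - ζ‖ ≤ s →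
      ‖f z - f ζ‖ ≤ B * W s := by
  obtain ⟨M, hM⟩ := (isCompact_closedBall (0 : ℂ) 1).exists_bound_of_continuousOn hc
  have M0 := (norm_nonneg _).trans (hM 0 (mem_closedBall_self zero_le_one))
  have W0 := hW.pos _ d0
  obtain ⟨B, B0, B1, B2⟩ : ∃ B, 0 ≤ B ∧ C ≤ B ∧ 2 * M ≤ B * W δ₀ :=
    ⟨|C| + 2 * M / W δ₀, by positivity, (le_abs_self C).trans (le_add_of_nonneg_right
      (by positivity)), by
      rw [add_mul, div_mul_cancel₀ _ W0.ne']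
      exact le_add_of_nonneg_left (by positivity)⟩
  refine ⟨10 * B, by positivity, fun ζ hζ s s0 z hz h => ?_⟩
  have Ws := hW.pos s s0
  have n1 : ∀ w : ℂ, ‖w‖ ≤ 1 → s ≤ ‖w - (1 + s) * ζ‖ := fun w hw => by
    have := norm_sub_norm_le ((1 + s) * ζ) w
    rw [norm_mul, hζ, norm_sub_rev, ← ofReal_one, ← ofReal_add, norm_real,
      Real.norm_of_nonneg (by linarith), ofReal_add, ofReal_one] at this
    linarith
  have n2 : ∀ w : ℂ, ‖w - ζ‖ ≤ ‖w - (1 + s) * ζ‖ + s ∧ ‖w - (1 + s) * ζ‖ ≤ ‖w - ζ‖ + s := fun w => by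
    have e : ‖s * ζ‖ = s := by rw [norm_mul, hζ, mul_one, norm_real, Real.norm_of_nonneg s0.le]
    have a1 := norm_add_le (w - (1 + s) * ζ) (s * ζ)
    have a2 := norm_sub_le (w - ζ) (s * ζ)
    rw [show w - (1 + s) * ζ + s * ζ = w - ζ by ring, e] at a1
    rw [show w - ζ - s * ζ = w - (1 + s) * ζ by ring, e] at a2
    exact ⟨a1, a2⟩
  have n0 : ∀ w ∈ closedBall (0 : ℂ) 1, w - (1 + s) * ζ ≠ 0 := fun w hw =>
    norm_pos_iff.mp (s0.trans_le (n1 w (mem_closedBall_zero_iff.mp hw)))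
  have := norm_le_of_forall_mem_frontier_norm_le (U := ball 0 1) isBounded_ball
    (f := fun w => (f w - f ζ) / (w - (1 + s) * ζ))
    ⟨(hd.sub_const _).div (by fun_prop) fun w hw => n0 w (ball_subset_closedBall hw),
      ((hc.sub continuousOn_const).div (by fun_prop) n0).mono closure_ball_subset_closedBall⟩
    (C := 5 * B * W s / s) (fun η hη => ?_) (subset_closure hz)
  · rw [norm_div, div_le_div_iff₀ (norm_pos_iff.mpr (n0 z (ball_subset_closedBall hz))) s0] at this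
    have := mul_le_mul_of_nonneg_left (show ‖z - (1 + s) * ζ‖ ≤ 2 * s by linarith [(n2 z).2])
      (show 0 ≤ 5 * B * W s by positivity)
    exact le_of_mul_le_mul_right (by linarith) s0
  have η1 : ‖η‖ = 1 := by simpa using frontier_ball_subset_sphere hη
  have z0 : ζ ≠ 0 := norm_pos_iff.mp (by linarith)
  have a1 := angle_le_mul_norm_sub η1 hζ
  rw [angle_eq_abs_arg (norm_pos_iff.mp (by linarith)) z0] at a1
  have e1 : ex ζ.arg = ζ := by simpa [hζ, ex] using norm_mul_exp_arg_mul_I ζ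
  have e2 : ex (ζ.arg + (η / ζ).arg) = η := by
    have := norm_mul_exp_arg_mul_I (η / ζ)
    rw [norm_div, η1, hζ, div_one, ofReal_one, one_mul] at this
    rw [ex, ofReal_add, add_mul, exp_add, this, ← ex, e1, mul_div_cancel₀ _ z0]
  set t := s + |(η / ζ).arg|
  have t0 : s ≤ t := le_add_of_nonneg_right (abs_nonneg _)
  have b1 : ‖f η - f ζ‖ ≤ B * W t := by
    rcases lt_or_ge t δ₀ with l | l
    · have := hm t ⟨by linarith, l⟩ ζ.arg (η / ζ).arg (le_add_of_nonneg_left s0.le)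
      rw [e1, e2] at this
      exact this.trans (mul_le_mul_of_nonneg_right B1 (hW.pos t (by linarith)).le)
    · linarith [norm_sub_le (f η) (f ζ), hM η (mem_closedBall_zero_iff.mpr η1.le),
        hM ζ (mem_closedBall_zero_iff.mpr hζ.le), mul_le_mul_of_nonneg_left (hW.mono _ _ d0 l) B0]
  have b2 : t ≤ 5 * ‖η - (1 + s) * ζ‖ := by
    have := mul_le_mul_of_nonneg_right (show Real.pi / 2 ≤ 2 by linarith [Real.pi_le_four])
      (norm_nonneg (η - ζ))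
    linarith [(n2 η).1, n1 η η1.le]
  rw [norm_div, div_le_div_iff₀ (s0.trans_le (n1 η η1.le)) s0]
  nlinarith [mul_le_mul_of_nonneg_left (hW.sub s t s0 t0) B0, mul_le_mul_of_nonneg_right b1 s0.le,
    mul_le_mul_of_nonneg_left b2 (mul_nonneg B0 Ws.le)]

theorem dir1 {W : ℝ → ℝ} (hW : Md W) {f : ℂ → ℂ} (hd : DifferentiableOn ℂ f (ball 0 1))
    (hc : ContinuousOn f (closedBall 0 1)) {Θ : ℂ → ℂ} (td : DifferentiableOn ℂ Θ (ball 0 1))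
    (h1 : ∀ z ∈ ball (0 : ℂ) 1, ‖Θ z‖ ≤ 1)
    (hl : ∀ᵐ θ : ℝ, ∃ w : ℂ, ‖w‖ = 1 ∧ Tendsto (fun r : ℝ => Θ (r * ex θ)) (𝓝[<] 1) (𝓝 w))
    (hs : ∀ᵐ θ : ℝ, ∃ r > (0 : ℝ), ∃ g : ℂ → ℂ, DifferentiableOn ℂ g (ball (ex θ) r) ∧
      EqOn g Θ (ball (ex θ) r ∩ ball 0 1)) {C : ℝ}
    (hC : ∀ ζ : ℂ, ‖ζ‖ = 1 → ∀ r > (0 : ℝ), ∀ g : ℂ → ℂ, DifferentiableOn ℂ g (ball ζ r) →
      EqOn g Θ (ball ζ r ∩ ball 0 1) → 0 < ‖deriv g ζ‖ → ‖f ζ‖ ≤ C * W (1 / ‖deriv g ζ‖))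
    {a : ℂ} (ha : a ∈ ball (0 : ℂ) 1) (hb : ‖Θ a‖ < 1 / 2) : ‖f a‖ ≤ 32 * |C| * W (1 - ‖a‖) := by
  have a1 := mem_ball_zero_iff.mp ha
  set δ := 1 - ‖a‖ with hδ
  have d0 : 0 < δ := sub_pos.mpr a1
  have W0 := hW.pos δ d0
  have n0 : ∀ w ∈ closedBall (0 : ℂ) 1, (1 - conj a * w) ^ 2 ≠ 0 := fun w hw =>
    pow_ne_zero 2 (mne a1 (mem_closedBall_zero_iff.mp hw))
  have c1 : ContinuousOn (fun w => f w / (1 - conj a * w) ^ 2) (closedBall 0 1) :=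
    hc.div (by fun_prop) n0
  have em : ∀ θ, ex θ ∈ closedBall (0 : ℂ) 1 := fun θ => mem_closedBall_zero_iff.mpr (ex_norm θ).le
  have b : ∀ θ, ‖f (ex θ) / (1 - conj a * ex θ) ^ 2‖ ≤ 8 * |C| * W δ / δ ^ 2 := fun θ =>
    closure_minimal (t := {θ | ‖f (ex θ) / (1 - conj a * ex θ) ^ 2‖ ≤ 8 * |C| * W δ / δ ^ 2})
      (fun θ hθ => by
        obtain ⟨⟨w, w1, hw⟩, r, r0, g, g1, g2⟩ := hθ
        have g3 : g (ex θ) = w := tendsto_nhds_unique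
          (((g1.continuousOn.continuousAt (ball_mem_nhds _ r0)).tendsto.comp (radt _)).congr'
            ((rad (ex_norm θ) r0).mono fun t ht => g2 ht.2.2)) hw
        have j := julia td h1 a1 hb (ex_norm θ) r0 g1 g2 (g3 ▸ w1)
        have q := mge a (ex_norm θ).le
        rw [← hδ] at j q
        show ‖f (ex θ) / (1 - conj a * ex θ) ^ 2‖ ≤ _
        rw [norm_div, norm_pow]
        set Q := ‖1 - conj a * ex θ‖
        have Q0 : 0 < Q := by linarith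
        have D0 : 0 < ‖deriv g (ex θ)‖ := (norm_nonneg _).lt_of_ne fun e => by
          rw [← e] at j
          linarith
        have k := hC _ (ex_norm θ) r r0 g g1 g2 D0
        have k1 := hW.mono _ (8 * Q ^ 2 / δ) (one_div_pos.mpr D0) (by
          rw [div_le_div_iff₀ D0 d0]
          linarith)
        have k2 := hW.sub δ (8 * Q ^ 2 / δ) d0 (by
          rw [le_div_iff₀ d0]
          nlinarith)
        rw [div_mul_eq_mul_div, le_div_iff₀ d0] at k2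
        have k3 := k.trans ((mul_le_mul_of_nonneg_right (le_abs_self C)
          (hW.pos _ (one_div_pos.mpr D0)).le).trans (mul_le_mul_of_nonneg_left k1 (abs_nonneg C)))
        rw [div_le_div_iff₀ (by positivity) (by positivity)]
        nlinarith [mul_le_mul_of_nonneg_left k2 (abs_nonneg C),
          mul_le_mul_of_nonneg_right k3 (sq_nonneg δ)])
      (isClosed_le (c1.comp_continuous ex_cont em).norm continuous_const)
      (volume.dense_of_ae (hl.and hs) θ)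
  have := norm_le_of_forall_mem_frontier_norm_le (U := ball 0 1) isBounded_ball
    (f := fun w => f w / (1 - conj a * w) ^ 2)
    ⟨hd.div (by fun_prop) fun w hw => n0 w (ball_subset_closedBall hw),
      c1.mono closure_ball_subset_closedBall⟩ (fun η hη => by
      have η1 : ‖η‖ = 1 := by simpa using frontier_ball_subset_sphere hη
      have e1 : ex η.arg = η := by simpa [η1, ex] using norm_mul_exp_arg_mul_I η
      exact e1 ▸ b _) (subset_closure ha)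
  have e : ‖1 - conj a * a‖ = δ * (1 + ‖a‖) := by
    rw [conj_mul', ← ofReal_pow, ← ofReal_one, ← ofReal_sub, norm_real,
      Real.norm_of_nonneg (by nlinarith [norm_nonneg a])]
    ring
  have p := norm_nonneg a
  rw [norm_div, norm_pow, e, div_le_div_iff₀ (by positivity) (by positivity)] at this
  have k : 8 * |C| * W δ * (δ * (1 + ‖a‖)) ^ 2 ≤ 8 * |C| * W δ * (δ * 2) ^ 2 := by
    gcongr
    linarith
  exact le_of_mul_le_mul_right (by linarith) (pow_pos d0 2)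

theorem dir2 {W : ℝ → ℝ} (w0 : Tendsto W (𝓝[>] 0) (𝓝 0)) {f : ℂ → ℂ}
    (hc : ContinuousOn f (closedBall 0 1)) {Θ : ℂ → ℂ} {ε C : ℝ}
    (hE : ∀ z ∈ ball (0 : ℂ) 1, ‖Θ z‖ < ε → ‖f z‖ ≤ C * W (1 - ‖z‖)) {ζ : ℂ} (hζ : ‖ζ‖ = 1)
    (f0 : f ζ ≠ 0) : ∃ d, 0 < d ∧ d ≤ 1 ∧ ∀ z ∈ ball ζ d ∩ ball 0 1, ε ≤ ‖Θ z‖ := by
  have t1 : Tendsto (fun z : ℂ => 1 - ‖z‖) (𝓝[ball 0 1] ζ) (𝓝[>] 0) :=
    tendsto_nhdsWithin_iff.mpr ⟨((show Continuous fun z : ℂ => 1 - ‖z‖ by fun_prop).tendsto' ζ 0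
      (by simp [hζ])).mono_left nhdsWithin_le_nhds,
      eventually_mem_nhdsWithin.mono fun z hz => sub_pos.mpr (mem_ball_zero_iff.mp hz)⟩
  have t2 := ((w0.comp t1).const_mul C).eventually_lt
    ((hc ζ (mem_closedBall_zero_iff.mpr hζ.le)).mono ball_subset_closedBall).norm
    (by simpa using f0)
  obtain ⟨d, d0, h⟩ := Metric.mem_nhdsWithin_iff.mp t2
  exact ⟨min d 1, lt_min d0 one_pos, min_le_right _ _, fun z hz => not_lt.mp fun l =>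
    (hE z hz.2 l).not_gt (h ⟨ball_subset_ball (min_le_left _ _) hz.1, hz.2⟩)⟩

theorem dir3 {W : ℝ → ℝ} (hW : Md W) {f : ℂ → ℂ} (hc : ContinuousOn f (closedBall 0 1))
    {Θ : ℂ → ℂ} (td : DifferentiableOn ℂ Θ (ball 0 1)) (h1 : ∀ z ∈ ball (0 : ℂ) 1, ‖Θ z‖ ≤ 1)
    (hl : ∀ᵐ θ : ℝ, ∃ w : ℂ, ‖w‖ = 1 ∧ Tendsto (fun r : ℝ => Θ (r * ex θ)) (𝓝[<] 1) (𝓝 w))
    {ε C B : ℝ} (e0 : 0 < ε) (B0 : 0 ≤ B)
    (hE : ∀ z ∈ ball (0 : ℂ) 1, ‖Θ z‖ < ε → ‖f z‖ ≤ C * W (1 - ‖z‖))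
    (hB : ∀ ζ : ℂ, ‖ζ‖ = 1 → ∀ s, 0 < s → ∀ z ∈ ball (0 : ℂ) 1, ‖z - ζ‖ ≤ s →
      ‖f z - f ζ‖ ≤ B * W s) :
    ∃ A, ∀ ζ : ℂ, ‖ζ‖ = 1 → ∀ r > (0 : ℝ), ∀ g : ℂ → ℂ, DifferentiableOn ℂ g (ball ζ r) →
      EqOn g Θ (ball ζ r ∩ ball 0 1) → ∀ s, 0 < s → (1 < ‖deriv g ζ‖ → s = 1 / ‖deriv g ζ‖) →
      (‖deriv g ζ‖ ≤ 1 → s = 1) → ‖f ζ‖ ≤ A * W s := by
  obtain ⟨M, hM⟩ := (isCompact_closedBall (0 : ℂ) 1).exists_bound_of_continuousOn hc
  have M0 := (norm_nonneg _).trans (hM 0 (mem_closedBall_self zero_le_one))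
  obtain ⟨K, hK⟩ : ∃ K, K = 17 * (1 + ε⁻¹) := ⟨_, rfl⟩
  have i0 := inv_pos.mpr e0
  have K1 : 1 < K := by linarith
  have K0 : 0 < 1 / K := by positivity
  have W0 := hW.pos _ K0
  refine ⟨M / W (1 / K) + (|C| + B) * K, fun ζ hζ r r0 g g1 g2 s s0 s1 s2 => ?_⟩
  have Ws := hW.pos s s0
  rw [add_mul]
  rcases le_or_gt ‖deriv g ζ‖ K with l | l
  · refine le_add_of_le_of_nonneg ?_ (by positivity)
    rw [div_mul_eq_mul_div, le_div_iff₀ W0]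
    refine mul_le_mul (hM ζ (mem_closedBall_zero_iff.mpr hζ.le)) (hW.mono _ _ K0 ?_) W0.le M0
    rcases le_or_gt ‖deriv g ζ‖ 1 with h | h
    · rw [s2 h, div_le_one (by linarith)]
      exact K1.le
    · rw [s1 h]
      exact one_div_le_one_div_of_le (by linarith) l
  refine le_add_of_nonneg_of_le (by positivity) ?_
  have D0 : 0 < ‖deriv g ζ‖ := by linarith
  have e := s1 (by linarith)
  rw [eq_div_iff D0.ne'] at e
  obtain ⟨z, hz, z1⟩ : ∃ z ∈ ball ζ (K * s) ∩ ball 0 1, ‖Θ z‖ < ε := by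
    by_contra h
    push Not at h
    have ks : 0 < K * s := by positivity
    obtain ⟨k, k1, k2, k3⟩ := cont td h1 hl hζ ks (by nlinarith) e0 h
    have o : ∀ {ρ : ℝ} {p : ℂ → ℂ}, 0 < ρ → DifferentiableOn ℂ p (ball ζ ρ) →
        EqOn p Θ (ball ζ ρ ∩ ball 0 1) →
        Tendsto (fun t : ℝ => deriv Θ (t * ζ)) (𝓝[<] 1) (𝓝 (deriv p ζ)) := fun r0 g1 g2 =>
      (((g1.deriv isOpen_ball).continuousOn.continuousAt (ball_mem_nhds _ r0)).tendsto.comp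
        (radt _)).congr' ((rad hζ r0).mono fun t ht => Filter.EventuallyEq.deriv_eq
          (((isOpen_ball.inter isOpen_ball).eventually_mem ht.2.2).mono g2))
    rw [tendsto_nhds_unique (o (by positivity) k1 k2) (o r0 g1 g2), le_div_iff₀ ks] at k3
    nlinarith
  have z2 : ‖z - ζ‖ ≤ K * s := by
    rw [← dist_eq_norm]
    exact hz.1.le
  have d0 := sub_pos.mpr (mem_ball_zero_iff.mp hz.2)
  have b1 := (hE z hz.2 z1).trans ((mul_le_mul_of_nonneg_right (le_abs_self C)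
    (hW.pos _ d0).le).trans (mul_le_mul_of_nonneg_left (hW.mono _ (K * s) d0 (by
      have := norm_sub_norm_le ζ z
      rw [norm_sub_rev] at this
      linarith)) (abs_nonneg C)))
  have b2 := hB ζ hζ _ (by positivity) z hz.2 z2
  have b3 : W (K * s) ≤ K * W s :=
    le_of_mul_le_mul_left (by linarith [hW.sub s (K * s) s0 (by nlinarith)]) s0
  have b4 := norm_sub_norm_le (f ζ) (f z)
  rw [norm_sub_rev] at b4
  nlinarith [mul_le_mul_of_nonneg_left b3 (add_nonneg (abs_nonneg C) B0)]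

end Pool.Agent.H.MP_32de40_an
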